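import Pool.Agent.K9h4.BC.Cor

/-!
# DOMINATING SET is solvable in polynomial time on balanced chordal graphs

The closed neighbourhood matrix of a balanced chordal graph is balanced, so that the fractional domination
number is the domination number (Berge's colourings), and the fractional domination number is computed with
sufficient precision by a multiplicative weights algorithm with polynomially many rounds.
-/

set_option autoImplicit false

namespace Pool.Agent.Results.MP_1e64e3_lc.BalancedChordalInP

open Pool.Agent.Lib.CX Pool.Agent.Y600.DC

/-- There is a polynomial-time algorithm `f` which decides, for every chordal graph whose clique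
hypergraph is balanced and for every number `k`, whether the graph has a dominating set with at most
`k` vertices. -/
theorem result : ∃ f : Gr × ℕ → Bool, PT f ∧ ∀ a : Gr × ℕ, Chordal a.1.G → Balanced a.1.G →
    (f a = true ↔ ∃ D : Finset (Fin a.1.n), Dominating a.1.G D ∧ D.card ≤ a.2) :=
  ⟨Pool.Agent.K9h4.BC.alg, Pool.Agent.K9h4.BC.alg_pt, fun a h1 h2 =>
    Pool.Agent.K9h4.BC.alg_correct a.1 (nb (Fin a.1.n) a.1.G h1 h2) a.2⟩

end Pool.Agent.Results.MP_1e64e3_lc.BalancedChordalInP
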